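import Pool.Agent.H922Z.NU.Defs
import Pool.Agent.Helper540.Holo

set_option autoImplicit false

open Complex Metric Set Filter Topology
open scoped ContDiff

namespace Pool.Agent.H11Z.NU

open BK Pool.Agent.H922Z.NU

section General

variable {V : Type} [NormedAddCommGroup V] [NormedSpace ℂ V] [FiniteDimensional ℂ V]

/-- iterated Cauchy estimate -/
theorem cauchy_iter (g : V → ℂ) (k : ℕ) : ∃ C : ℝ, 0 ≤ C ∧ ∀ (z : V) (t M : ℝ), 0 < t →
    DifferentiableOn ℂ g (ball z t) → (∀ w ∈ ball z t, ‖g w‖ ≤ M) →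
    ‖iteratedFDeriv ℂ k g z‖ ≤ C * M / t ^ k := by
  induction k with
  | zero =>
    refine ⟨1, zero_le_one, fun z t M ht _ hM => ?_⟩
    rw [norm_iteratedFDeriv_zero]
    simpa using hM z (mem_ball_self ht)
  | succ k ih =>
    obtain ⟨C, hC, h⟩ := ih
    refine ⟨C * 2 ^ (k + 2), by positivity, fun z t M ht hd hM => ?_⟩
    have ht2 : 0 < t / 2 := by linarith
    have hb : ∀ w ∈ ball z (t / 2), ‖iteratedFDeriv ℂ k g w‖ ≤ C * M / (t / 2) ^ k := by
      intro w hw
      have hsub := Helper540.ball_half_subset hw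
      exact h w (t / 2) M ht2 (hd.mono hsub) (fun y hy => hM y (hsub hy))
    have hcd : ContDiffOn ℂ ((k + 1 : ℕ)) g (ball z t) :=
      Helper540.contDiffOn_of_differentiableOn isOpen_ball hd (k + 1)
    have hdk : DifferentiableOn ℂ (iteratedFDeriv ℂ k g) (ball z (t / 2)) := by
      intro w hw
      have hw' : w ∈ ball z t := ball_subset_ball (by linarith) hw
      have h1 : ContDiffAt ℂ ((k + 1 : ℕ)) g w := hcd.contDiffAt (isOpen_ball.mem_nhds hw')
      have h2 : ContDiffAt ℂ 1 (iteratedFDeriv ℂ k g) w :=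
        h1.iteratedFDeriv_right (by push_cast; rw [add_comm])
      exact (h2.differentiableAt (by simp)).differentiableWithinAt
    have hmaps : MapsTo (iteratedFDeriv ℂ k g) (ball z (t / 2))
        (closedBall (iteratedFDeriv ℂ k g z) (2 * (C * M / (t / 2) ^ k))) := by
      intro x hx
      rw [mem_closedBall, dist_eq_norm]
      calc ‖iteratedFDeriv ℂ k g x - iteratedFDeriv ℂ k g z‖
          ≤ ‖iteratedFDeriv ℂ k g x‖ + ‖iteratedFDeriv ℂ k g z‖ := norm_sub_le _ _
        _ ≤ _ := by linarith [hb x hx, hb z (mem_ball_self ht2)]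
    have := Complex.norm_fderiv_le_div_of_mapsTo_ball hdk hmaps ht2
    rw [norm_fderiv_iteratedFDeriv] at this
    calc _ ≤ _ := this
      _ = _ := by
        have : t ≠ 0 := ht.ne'
        rw [div_pow]
        field_simp
        ring

theorem cauchy_iter_real (g : V → ℂ) (k : ℕ) : ∃ C : ℝ, 0 ≤ C ∧ ∀ (z : V) (t M : ℝ), 0 < t →
    DifferentiableOn ℂ g (ball z t) → (∀ w ∈ ball z t, ‖g w‖ ≤ M) →
    ‖iteratedFDeriv ℝ k g z‖ ≤ C * M / t ^ k := by
  obtain ⟨C, hC, h⟩ := cauchy_iter g k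
  refine ⟨C, hC, fun z t M ht hd hM => ?_⟩
  have h1 : ContDiffAt ℂ (k : ℕ) g z :=
    (Helper540.contDiffOn_of_differentiableOn isOpen_ball hd k).contDiffAt (ball_mem_nhds z ht)
  rw [← h1.restrictScalars_iteratedFDeriv (𝕜 := ℝ)]
  simp only [Function.comp_apply, ContinuousMultilinearMap.norm_restrictScalars]
  exact h z t M ht hd hM

/-- the flat function built from the data of the core statement -/
theorem assemble (D F U : Set V) (hD : IsOpen D) (hne : D.Nonempty) (hF : IsClosed F)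
    (hFD : F ⊆ frontier D) (g : V → ℂ) (c : ℝ) (K : ℕ) (hU : IsOpen U)
    (hg : DifferentiableOn ℂ g U) (hg0 : ∀ z ∈ U, g z ≠ 0) (hc : 0 < c)
    (hball : ∀ z ∈ closure D, ∀ s : ℝ, 0 < s → s ≤ 1 → (∀ x ∈ F, s ≤ ‖z - x‖) →
      ball z (c * s ^ K) ⊆ U)
    (hdec : ∀ N : ℕ, ∃ C : ℝ, ∀ z ∈ U, ∀ x ∈ F, ‖g z‖ ≤ C * ‖z - x‖ ^ N) :
    ∃ f : V → ℂ, DifferentiableOn ℂ f D ∧ ContinuousOn f (closure D) ∧
      (∀ k : ℕ, ∃ G : V → ContinuousMultilinearMap ℝ (fun _ : Fin k => V) ℂ,
        ContinuousOn G (closure D) ∧ (∀ z ∈ D, iteratedFDeriv ℝ k f z = G z) ∧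
        (∀ z ∈ F, G z = 0)) ∧
      (∃ z ∈ D, f z ≠ 0) ∧
      {z | z ∈ closure D ∧ f z = 0} = F := by
  classical
  have : ProperSpace V := FiniteDimensional.proper ℂ V
  have hsubU : ∀ z ∈ closure D, z ∉ F → z ∈ U := by
    intro z hz hzF
    obtain ⟨ε, hε, hεF⟩ := Metric.isOpen_iff.1 hF.isOpen_compl z hzF
    have hs : 0 < min ε 1 := lt_min hε one_pos
    refine hball z hz (min ε 1) hs (min_le_right _ _) (fun x hx => ?_)
      (mem_ball_self (by positivity))
    by_contra hlt
    push Not at hlt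
    have : x ∈ ball z ε := by
      rw [mem_ball, dist_comm, dist_eq_norm]
      exact hlt.trans_le (min_le_left _ _)
    exact hεF this hx
  have hDF : ∀ z ∈ D, z ∉ F := by
    intro z hz hzF
    have := hFD hzF
    rw [hD.frontier_eq] at this
    exact this.2 hz
  have hDU : D ⊆ U := fun z hz => hsubU z (subset_closure hz) (hDF z hz)
  set f : V → ℂ := fun z => if z ∈ F then 0 else g z with hf
  set G : (k : ℕ) → V → ContinuousMultilinearMap ℝ (fun _ : Fin k => V) ℂ :=
    fun k z => if z ∈ F then 0 else iteratedFDeriv ℝ k g z with hG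
  have hfg : ∀ z ∈ D, f z = g z := fun z hz => by simp [hf, hDF z hz]
  have hGc : ∀ k, ContinuousOn (G k) (closure D) := by
    intro k x hx
    by_cases hxF : x ∈ F
    · obtain ⟨Ck, hCk, hk⟩ := cauchy_iter_real g k
      obtain ⟨C, hC⟩ := hdec ((K + 1) * k + 1)
      set c' : ℝ := min c 1 with hc'
      have hc'0 : 0 < c' := lt_min hc one_pos
      set B : ℝ := Ck * (|C| * 2 ^ ((K + 1) * k + 1)) / c' ^ k with hB
      have hB0 : 0 ≤ B := by positivity
      have hbd : ∀ z ∈ closure D, ‖z - x‖ ≤ 1 → ‖G k z‖ ≤ B * ‖z - x‖ := by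
        intro z hz hz1
        by_cases hzF : z ∈ F
        · simp only [hG, hzF, if_true, norm_zero]
          positivity
        simp only [hG, hzF, if_false]
        obtain ⟨y, hyF, hy⟩ := hF.exists_infDist_eq_dist ⟨x, hxF⟩ z
        set s : ℝ := infDist z F with hs
        have hs0 : 0 < s := (hF.notMem_iff_infDist_pos ⟨x, hxF⟩).1 hzF
        have hsle : ∀ x' ∈ F, s ≤ ‖z - x'‖ := fun x' hx' => by
          rw [← dist_eq_norm]; exact infDist_le_dist_of_mem hx'
        have hsx : s ≤ ‖z - x‖ := hsle x hxF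
        have hs1 : s ≤ 1 := hsx.trans hz1
        have hpow : s ^ (K + 1) ≤ s ^ K := pow_le_pow_of_le_one hs0.le hs1 (Nat.le_succ K)
        have hpow' : s ^ (K + 1) ≤ s := by
          calc s ^ (K + 1) ≤ s ^ 1 := pow_le_pow_of_le_one hs0.le hs1 (by omega)
            _ = s := pow_one s
        have ht0 : 0 < c' * s ^ (K + 1) := by positivity
        have hsub : ball z (c' * s ^ (K + 1)) ⊆ U := by
          refine (ball_subset_ball ?_).trans (hball z hz s hs0 hs1 hsle)
          exact mul_le_mul (min_le_left _ _) hpow (by positivity) hc.le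
        have hts : c' * s ^ (K + 1) ≤ s := by
          calc c' * s ^ (K + 1) ≤ 1 * s :=
                mul_le_mul (min_le_right _ _) hpow' (by positivity) zero_le_one
            _ = s := one_mul s
        have hM : ∀ w ∈ ball z (c' * s ^ (K + 1)),
            ‖g w‖ ≤ |C| * (2 * s) ^ ((K + 1) * k + 1) := by
          intro w hw
          have h1 : ‖w - y‖ ≤ 2 * s := by
            rw [← dist_eq_norm]
            have := mem_ball.1 hw
            calc dist w y ≤ dist w z + dist z y := dist_triangle _ _ _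
              _ ≤ 2 * s := by linarith
          calc ‖g w‖ ≤ C * ‖w - y‖ ^ ((K + 1) * k + 1) := hC w (hsub hw) y hyF
            _ ≤ |C| * (2 * s) ^ ((K + 1) * k + 1) :=
              mul_le_mul (le_abs_self C) (pow_le_pow_left₀ (norm_nonneg _) h1 _)
                (by positivity) (abs_nonneg C)
        calc ‖iteratedFDeriv ℝ k g z‖
            ≤ Ck * (|C| * (2 * s) ^ ((K + 1) * k + 1)) / (c' * s ^ (K + 1)) ^ k :=
              hk z _ _ ht0 (hg.mono hsub) hM
          _ = B * s := by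
              rw [hB, mul_pow, mul_pow, ← pow_mul, pow_succ s]
              field_simp
          _ ≤ B * ‖z - x‖ := mul_le_mul_of_nonneg_left hsx hB0
      have hGx : G k x = 0 := by simp [hG, hxF]
      rw [ContinuousWithinAt, hGx]
      refine squeeze_zero_norm' (a := fun z => B * ‖z - x‖) ?_ ?_
      · have h1 : ∀ᶠ z in 𝓝[closure D] x, ‖z - x‖ ≤ 1 := by
          apply mem_nhdsWithin_of_mem_nhds
          filter_upwards [closedBall_mem_nhds x one_pos] with z hz
          rwa [mem_closedBall, dist_eq_norm] at hz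
        filter_upwards [h1, self_mem_nhdsWithin] with z hz1 hz using hbd z hz hz1
      · have : Continuous fun z : V => B * ‖z - x‖ := by fun_prop
        have h2 := this.tendsto x
        simp only [sub_self, norm_zero, mul_zero] at h2
        exact h2.mono_left nhdsWithin_le_nhds
    · have hxU := hsubU x hx hxF
      have h1 : ContDiffAt ℂ (k : ℕ) g x :=
        (Helper540.contDiffOn_of_differentiableOn hU hg k).contDiffAt (hU.mem_nhds hxU)
      have h2 : ContDiffAt ℝ (k : ℕ) g x := h1.restrict_scalars ℝ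
      have h3 : ContDiffAt ℝ 0 (iteratedFDeriv ℝ k g) x := h2.iteratedFDeriv_right (by simp)
      have h4 : G k =ᶠ[𝓝 x] iteratedFDeriv ℝ k g := by
        filter_upwards [hF.isOpen_compl.mem_nhds hxF] with z hz
        have : z ∉ F := hz
        simp [hG, this]
      exact (h3.continuousAt.congr h4.symm).continuousWithinAt
  refine ⟨f, (hg.mono hDU).congr hfg, ?_, fun k => ⟨G k, hGc k, fun z hz => ?_, fun z hz => ?_⟩,
    ?_, ?_⟩
  · have h0 : f = fun z => G 0 z (fun _ => 0) := by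
      funext z
      by_cases hz : z ∈ F
      · simp [hf, hG, hz]
      · simp [hf, hG, hz]
    rw [h0]
    exact (ContinuousMultilinearMap.apply ℝ (fun _ : Fin 0 => V) ℂ
      (fun _ => 0)).continuous.comp_continuousOn (hGc 0)
  · have h1 : f =ᶠ[𝓝 z] g := by
      filter_upwards [hD.mem_nhds hz] with w hw using hfg w hw
    rw [(h1.iteratedFDeriv ℝ k).eq_of_nhds]
    simp [hG, hDF z hz]
  · simp [hG, hz]
  · obtain ⟨z, hz⟩ := hne
    exact ⟨z, hz, by rw [hfg z hz]; exact hg0 z (hDU hz)⟩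
  · ext z
    constructor
    · rintro ⟨hz, h0⟩
      by_contra hzF
      have : f z = g z := by simp [hf, hzF]
      exact hg0 z (hsubU z hz hzF) (this ▸ h0)
    · intro hz
      exact ⟨frontier_subset_closure (hFD hz), by simp [hf, hz]⟩

end General

theorem le_iff_closure {V : Type} [NormedAddCommGroup V] [NormedSpace ℝ V] (ρ : V → ℝ)
    (hρ : Continuous ρ) (h1 : ∀ z, ρ z = 0 → fderiv ℝ ρ z ≠ 0) (z : V) :
    ρ z ≤ 0 ↔ z ∈ closure {z | ρ z < 0} := by
  constructor
  · intro hz
    rcases hz.lt_or_eq with hz | hz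
    · exact subset_closure hz
    · by_contra hcl
      apply h1 z hz
      apply IsLocalMin.fderiv_eq_zero
      filter_upwards [isClosed_closure.isOpen_compl.mem_nhds hcl] with w hw
      rw [hz]
      by_contra hlt
      push Not at hlt
      exact hw (subset_closure hlt)
  · intro hz
    exact closure_minimal (s := {z | ρ z < 0}) (t := {z | ρ z ≤ 0}) (fun w (hw : ρ w < 0) => (le_of_lt hw : ρ w ≤ 0))
      (isClosed_le hρ continuous_const) hz

theorem second_comp {V W : Type} [NormedAddCommGroup V] [NormedSpace ℝ V] [NormedAddCommGroup W]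
    [NormedSpace ℝ W] (ρ : V → ℝ) (hρ : ContDiff ℝ ∞ ρ) (L : W →L[ℝ] V) (z w : W) :
    fderiv ℝ (fun y => fderiv ℝ (ρ ∘ L) y w) z w = iteratedFDeriv ℝ 2 ρ (L z) ![L w, L w] := by
  have hd : Differentiable ℝ ρ := hρ.differentiable (by simp)
  have hd2 : Differentiable ℝ (fderiv ℝ ρ) :=
    (hρ.fderiv_right (m := ∞) (by simp)).differentiable (by simp)
  have h1 : (fun y => fderiv ℝ (ρ ∘ L) y w) = fun y => fderiv ℝ ρ (L y) (L w) := by
    funext y
    rw [fderiv_comp y (hd _) L.differentiableAt, L.fderiv]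
    rfl
  have h2 : HasFDerivAt (fun y => fderiv ℝ ρ (L y) (L w))
      ((ContinuousLinearMap.apply ℝ ℝ (L w)).comp ((fderiv ℝ (fderiv ℝ ρ) (L z)).comp L)) z :=
    (ContinuousLinearMap.apply ℝ ℝ (L w)).hasFDerivAt.comp z
      ((hd2 (L z)).hasFDerivAt.comp z L.hasFDerivAt)
  rw [h1, h2.fderiv, iteratedFDeriv_two_apply]
  simp

theorem t10 : T10 := by
  intro hCore hT9 n _ D hD hconn hbdd hρ E hE _ hf F hFE hF
  obtain ⟨ρ, hρs, rfl, hρ1, hρ2⟩ := hρ
  obtain ⟨f, hfd, hfc, hfk, -, hfz⟩ := hf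
  set e : EuclideanSpace ℂ (Fin n) ≃L[ℂ] En n := EuclideanSpace.equiv (Fin n) ℂ with he
  set L : En n →L[ℝ] EuclideanSpace ℂ (Fin n) :=
    (e.symm : En n →L[ℂ] EuclideanSpace ℂ (Fin n)).restrictScalars ℝ with hL
  have hLa : ∀ z, L z = e.symm z := fun z => rfl
  have hcl := le_iff_closure ρ hρs.continuous hρ1
  have hcomp : IsCompact (closure {z | ρ z < 0}) :=
    Metric.isCompact_of_isClosed_isBounded isClosed_closure hbdd.closure
  have hd : Differentiable ℝ ρ := hρs.differentiable (by simp)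
  have hfd0 : ∀ z w, fderiv ℝ (ρ ∘ L) z w = fderiv ℝ ρ (L z) (L w) := by
    intro z w
    rw [fderiv_comp z (hd _) L.differentiableAt, L.fderiv]
    rfl
  have hLI : ∀ w : En n, L (I • w) = I • L w := fun w => by rw [hLa, hLa, map_smul]
  obtain ⟨A, hA1, hA⟩ : ∃ A : ℝ, 1 ≤ A ∧ ∀ w, ‖e.symm w‖ ≤ A * ‖w‖ :=
    ⟨max 1 ‖(e.symm : En n →L[ℂ] EuclideanSpace ℂ (Fin n))‖, le_max_left _ _, fun w =>
      ((e.symm : En n →L[ℂ] EuclideanSpace ℂ (Fin n)).le_opNorm w).trans
        (mul_le_mul_of_nonneg_right (le_max_right _ _) (norm_nonneg _))⟩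
  obtain ⟨B, hB1, hB⟩ : ∃ B : ℝ, 1 ≤ B ∧ ∀ w, ‖e w‖ ≤ B * ‖w‖ :=
    ⟨max 1 ‖(e : EuclideanSpace ℂ (Fin n) →L[ℂ] En n)‖, le_max_left _ _, fun w =>
      ((e : EuclideanSpace ℂ (Fin n) →L[ℂ] En n).le_opNorm w).trans
        (mul_le_mul_of_nonneg_right (le_max_right _ _) (norm_nonneg _))⟩
  have hA0 : 0 < A := by linarith
  have hB0 : 0 < B := by linarith
  have hfr : ∀ x ∈ frontier {z | ρ z < 0}, ρ x = 0 := by
    intro x hx
    rw [hD.frontier_eq] at hx
    exact le_antisymm ((hcl x).2 hx.1) (not_lt.1 hx.2)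
  have hgood : Good (ρ ∘ L) (e '' F) := by
    refine hCore n (ρ ∘ L) (hρs.comp L.contDiff) ?_ ?_ ?_ (e '' F) ?_ (f ∘ e.symm) ?_ ?_ ?_ ?_
    · have : {z | (ρ ∘ L) z ≤ 0} = e '' closure {z | ρ z < 0} := by
        ext z
        simp only [mem_ofPred_eq, Function.comp_apply, hcl, hLa]
        constructor
        · intro h
          exact ⟨e.symm z, h, e.apply_symm_apply z⟩
        · rintro ⟨w, hw, rfl⟩
          rwa [e.symm_apply_apply]
      rw [this]
      exact hcomp.image e.continuous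
    · intro z hz h0
      apply hρ1 (L z) hz
      ext v
      have := hfd0 z (e v)
      rw [h0, hLa (e v), e.symm_apply_apply] at this
      exact this.symm
    · intro z hz w hw h1 h2
      have hw' : L w ≠ 0 := by
        rw [hLa]
        exact fun h => hw (e.symm.map_eq_zero_iff.1 h)
      have := hρ2 (L z) hz (L w) hw' (by rw [← hfd0, h1]) (by rw [← hLI, ← hfd0, h2])
      unfold Lv
      rw [second_comp ρ hρs L z w, second_comp ρ hρs L z (I • w), hLI]
      linarith
    · rintro x ⟨y, hy, rfl⟩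
      simp only [Function.comp_apply, hLa, e.symm_apply_apply]
      exact hfr y (hE (hFE hy))
    · exact hfd.comp e.symm.differentiableOn (fun z hz => hz)
    · intro z hz h0
      have hz' : ρ (e.symm z) < 0 := hz
      have : e.symm z ∈ E := by
        rw [← hfz]
        exact ⟨subset_closure hz', h0⟩
      exact hz'.ne (hfr _ (hE this))
    · obtain ⟨C, hC⟩ := hcomp.exists_bound_of_continuousOn hfc
      exact ⟨C, fun z hz => hC _ (subset_closure hz)⟩
    · intro N
      obtain ⟨C, hC⟩ := hT9 n ρ hρs hbdd hρ1 E hE f hfd hfk N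
      refine ⟨|C| * A ^ N, ?_⟩
      rintro z hz x ⟨y, hy, rfl⟩
      have h1 : ‖e.symm z - y‖ ≤ A * ‖z - e y‖ := by
        have := hA (z - e y)
        rwa [map_sub, e.symm_apply_apply] at this
      calc ‖(f ∘ e.symm) z‖ ≤ C * ‖e.symm z - y‖ ^ N := hC _ hz y (hFE hy)
        _ ≤ |C| * (A * ‖z - e y‖) ^ N :=
          mul_le_mul (le_abs_self C) (pow_le_pow_left₀ (norm_nonneg _) h1 _)
            (by positivity) (abs_nonneg C)
        _ = _ := by rw [mul_pow, mul_assoc]
  obtain ⟨U, g, c, K, hU, hg, hg0, hc, hball, -, hdec⟩ := hgood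
  refine assemble _ F (e ⁻¹' U) hD hconn.nonempty hF (hFE.trans hE) (g ∘ e) (c / (A ^ K * B)) K
    (hU.preimage e.continuous) (hg.comp e.differentiableOn (fun z hz => hz))
    (fun z hz => hg0 _ hz) (by positivity) ?_ ?_
  · intro z hz s hs0 hs1 hsF w hw
    refine hball (e z) ?_ (s / A) (by positivity) ((div_le_one hA0).2 (hs1.trans hA1)) ?_ ?_
    · simp only [Function.comp_apply, hLa, e.symm_apply_apply]
      exact (hcl z).2 hz
    · rintro x ⟨y, hy, rfl⟩
      rw [div_le_iff₀ hA0, mul_comm]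
      have := hA (e z - e y)
      rw [map_sub, e.symm_apply_apply, e.symm_apply_apply] at this
      exact (hsF y hy).trans this
    · rw [mem_ball, dist_eq_norm] at hw ⊢
      rw [← map_sub]
      calc ‖e (w - z)‖ ≤ B * ‖w - z‖ := hB _
        _ < B * (c / (A ^ K * B) * s ^ K) := mul_lt_mul_of_pos_left hw hB0
        _ = c * (s / A) ^ K := by rw [div_pow]; field_simp
  · intro N
    obtain ⟨C, hC⟩ := hdec N
    refine ⟨|C| * B ^ N, fun z hz x hx => ?_⟩
    have h1 : ‖e z - e x‖ ≤ B * ‖z - x‖ := by rw [← map_sub]; exact hB _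
    calc ‖(g ∘ e) z‖ ≤ C * ‖e z - e x‖ ^ N := hC _ hz _ ⟨x, hx, rfl⟩
      _ ≤ |C| * (B * ‖z - x‖) ^ N :=
        mul_le_mul (le_abs_self C) (pow_le_pow_left₀ (norm_nonneg _) h1 _)
          (by positivity) (abs_nonneg C)
      _ = _ := by rw [mul_pow, mul_assoc]

end Pool.Agent.H11Z.NU
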